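import Mathlib

/-!
# TANK G, block C, row J4: Lemma 2 (coordinate change), abstract form (helper76)

`v` is a valuation of the ring `S ⊇ k` (a place of a curve through the point), trivial on `k`.
`unique_coeffV`: at most one coefficient vector `a` makes `v (G + ∑ a_j m_j) ≤ v (t) ^ (N + 1)`,
where `v (m_j) = v (t) ^ (j + 1)`, `j = 0, .., N - 1`.
`lemma2_finite`: the set of the bad vectors `a` is finite.
-/

set_option autoImplicit false

namespace Pool.Agent.TGh76

open WithZero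

section One

variable {k S : Type*} [Field k] [CommRing S] [Algebra k S] {Γ : Type*}
  [LinearOrderedCommGroupWithZero Γ]

/-- The value of a nontrivial combination of `m_j`, `v (m_j) = x ^ (j + 1)`. -/
theorem comb_val (v : Valuation S Γ) (hk : ∀ c : k, c ≠ 0 → v (algebraMap k S c) = 1) {x : Γ}
    (hx0 : x ≠ 0) (hx1 : x < 1) {N : ℕ} (m : Fin N → S)
    (hm : ∀ j, v (m j) = x ^ ((j : ℕ) + 1)) (d : Fin N → k) (hd : d ≠ 0) :
    ∃ j0 : Fin N, v (∑ j, algebraMap k S (d j) * m j) = x ^ ((j0 : ℕ) + 1) := by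
  classical
  have hex : ∃ j, d j ≠ 0 := by
    by_contra hcon
    push Not at hcon
    exact hd (funext hcon)
  obtain ⟨j1, hj1⟩ := hex
  obtain ⟨j0, hj0, hmin⟩ := Finset.exists_min_image (Finset.univ.filter (fun j => d j ≠ 0))
    (fun j : Fin N => (j : ℕ)) ⟨j1, by simp [hj1]⟩
  rw [Finset.mem_filter] at hj0
  refine ⟨j0, ?_⟩
  have hxpos : 0 < x := zero_lt_iff.2 hx0
  have hterm : ∀ j, d j ≠ 0 → v (algebraMap k S (d j) * m j) = x ^ ((j : ℕ) + 1) := fun j hj => by
    rw [map_mul, hk _ hj, hm, one_mul]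
  have hrest : v (∑ j ∈ Finset.univ.erase j0, algebraMap k S (d j) * m j) <
      v (algebraMap k S (d j0) * m j0) := by
    rw [hterm j0 hj0.2]
    refine Valuation.map_sum_lt v (pow_ne_zero _ hx0) fun j hj => ?_
    by_cases hdj : d j = 0
    · rw [hdj, map_zero, zero_mul, map_zero]
      exact pow_pos hxpos _
    · rw [hterm j hdj]
      have h2 : (j0 : ℕ) ≤ j := hmin j (by simp [hdj])
      have h3 : (j0 : ℕ) ≠ j := fun h4 => (Finset.ne_of_mem_erase hj) (Fin.ext h4).symm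
      exact pow_lt_pow_right_of_lt_one₀ hxpos hx1 (by omega)
  rw [← Finset.sum_erase_add _ _ (Finset.mem_univ j0), Valuation.map_add_eq_of_lt_right v hrest,
    hterm j0 hj0.2]

/-- At most one bad coefficient vector for one place. -/
theorem unique_coeffV (v : Valuation S Γ) (hk : ∀ c : k, c ≠ 0 → v (algebraMap k S c) = 1) {x : Γ}
    (hx0 : x ≠ 0) (hx1 : x < 1) {N : ℕ} (m : Fin N → S)
    (hm : ∀ j, v (m j) = x ^ ((j : ℕ) + 1)) (G : S) {a a' : Fin N → k}
    (ha : v (G + ∑ j, algebraMap k S (a j) * m j) ≤ x ^ (N + 1))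
    (ha' : v (G + ∑ j, algebraMap k S (a' j) * m j) ≤ x ^ (N + 1)) : a = a' := by
  by_contra hne
  obtain ⟨j0, h1⟩ := comb_val v hk hx0 hx1 m hm (a - a') (sub_ne_zero.mpr hne)
  have h2 : (G + ∑ j, algebraMap k S (a j) * m j) - (G + ∑ j, algebraMap k S (a' j) * m j) =
      ∑ j, algebraMap k S ((a - a') j) * m j := by
    rw [add_sub_add_left_eq_sub, ← Finset.sum_sub_distrib]
    refine Finset.sum_congr rfl fun j _ => ?_
    rw [Pi.sub_apply, map_sub, sub_mul]
  have h3 := Valuation.map_sub_le v ha ha'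
  rw [h2, h1] at h3
  have h4 : x ^ (N + 1) < x ^ ((j0 : ℕ) + 1) :=
    pow_lt_pow_right_of_lt_one₀ (zero_lt_iff.2 hx0) hx1 (by have := j0.2; omega)
  exact absurd h3 (not_le.2 h4)

end One

section Ord

/-- The order of a value. -/
noncomputable def ordZ (x : ℤᵐ⁰) : ℕ := (-(WithZero.log x)).toNat

theorem ordZ_exp (a : ℤ) : ordZ (WithZero.exp a) = (-a).toNat := by
  rw [ordZ, WithZero.log_exp]

theorem ordZ_anti {x y : ℤᵐ⁰} (hx : x ≠ 0) (h : x ≤ y) : ordZ y ≤ ordZ x := by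
  have hy : y ≠ 0 := by
    rintro rfl
    exact hx (le_antisymm h zero_le)
  rw [ordZ, ordZ]
  have h1 := (WithZero.log_le_log hx hy).2 h
  omega

theorem ordZ_pow {x : ℤᵐ⁰} (hx0 : x ≠ 0) (hx : x ≤ 1) (n : ℕ) : ordZ (x ^ n) = n * ordZ x := by
  have h1 := (WithZero.log_le_log hx0 one_ne_zero).2 hx
  rw [WithZero.log_one] at h1
  rw [ordZ, ordZ, WithZero.log_pow]
  have h2 : -(n • WithZero.log x) = ((n * (-(WithZero.log x)).toNat : ℕ) : ℤ) := by
    rw [Nat.cast_mul, Int.toNat_of_nonneg (by omega), nsmul_eq_mul]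
    ring
  rw [h2]
  exact Int.toNat_natCast _

end Ord

section Lemma2

variable {k S : Type*} [Field k] [CommRing S] [Algebra k S]

/-- **Lemma 2, finiteness of the bad set**: `Pt g`, `rho g` are given by the finitely many places
`v j` of the curve `w = 0` with weights `mu j`, for `g` in the ideal `M`. -/
theorem lemma2_finite {J : Type*} [Finite J] [Fintype J] (M : Ideal S) (Pt : S → Prop) (rho : S → ℕ)
    (mu : J → ℕ) (v : J → Valuation S ℤᵐ⁰) (hk : ∀ j, ∀ c : k, c ≠ 0 → v j (algebraMap k S c) = 1)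
    (hM : ∀ j, ∀ g ∈ M, v j g < 1) (hPt : ∀ g ∈ M, (∀ j, v j g ≠ 0) → Pt g)
    (hrho : ∀ g ∈ M, (∀ j, v j g ≠ 0) → rho g = ∑ j, mu j * ordZ (v j g))
    {t : S} (htM : t ∈ M) (ht : ∀ j, v j t ≠ 0) {N : ℕ} (m : Fin N → S) (hmM : ∀ i, m i ∈ M)
    (hm : ∀ j i, v j (m i) = v j t ^ ((i : ℕ) + 1)) (G : S) (hG : G ∈ M) :
    {a : Fin N → k | ¬ (Pt (G + ∑ i, algebraMap k S (a i) * m i) ∧
      rho (G + ∑ i, algebraMap k S (a i) * m i) ≤ (N + 1) * rho t)}.Finite := by
  classical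
  have hsub : {a : Fin N → k | ¬ (Pt (G + ∑ i, algebraMap k S (a i) * m i) ∧
      rho (G + ∑ i, algebraMap k S (a i) * m i) ≤ (N + 1) * rho t)} ⊆
      ⋃ j : J, {a : Fin N → k | v j (G + ∑ i, algebraMap k S (a i) * m i) ≤ v j t ^ (N + 1)} := by
    intro a ha
    rw [Set.mem_iUnion]
    by_contra hcon
    push Not at hcon
    apply ha
    have hcon' : ∀ j, v j t ^ (N + 1) < v j (G + ∑ i, algebraMap k S (a i) * m i) := fun j =>
      not_le.1 (hcon j)
    have hne : ∀ j, v j (G + ∑ i, algebraMap k S (a i) * m i) ≠ 0 := fun j h0 => by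
      have h1 := hcon' j
      rw [h0] at h1
      exact not_lt_zero h1
    have hgM : G + ∑ i, algebraMap k S (a i) * m i ∈ M :=
      M.add_mem hG (M.sum_mem fun i _ => M.mul_mem_left _ (hmM i))
    refine ⟨hPt _ hgM hne, ?_⟩
    rw [hrho _ hgM hne, hrho _ htM ht, Finset.mul_sum]
    refine Finset.sum_le_sum fun j _ => ?_
    have h1 : ordZ (v j (G + ∑ i, algebraMap k S (a i) * m i)) ≤ (N + 1) * ordZ (v j t) := by
      rw [← ordZ_pow (ht j) (hM j t htM).le]
      exact ordZ_anti (pow_ne_zero _ (ht j)) (hcon' j).le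
    calc mu j * ordZ (v j (G + ∑ i, algebraMap k S (a i) * m i)) ≤
        mu j * ((N + 1) * ordZ (v j t)) := Nat.mul_le_mul_left _ h1
      _ = (N + 1) * (mu j * ordZ (v j t)) := by ring
  refine Set.Finite.subset (Set.finite_iUnion fun j => ?_) hsub
  refine Set.Subsingleton.finite fun a ha a' ha' => ?_
  exact unique_coeffV (v j) (hk j) (ht j) (hM j t htM) m (hm j) G ha ha'

end Lemma2

end Pool.Agent.TGh76
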