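import Mathlib

/-!
# The place lemma: the order of `u · dg/du` (helper76)

`IsOrd ord`: `ord : M → ℤ` is additive on products and satisfies the ultrametric inequality
(away from `0`).
`ord_le_ord_mul_der`, `ord_mul_der_eq`: in a field of characteristic `p` in which every element
is `Σ_{i<p} u^i a_i^p`, with `D u = 1` and `p ∤ ord u`: `ord g ≤ ord (u D g)`, with equality when
`p ∤ ord g`.
`unique_coeff`, `unique_coeff_der`: uniqueness of the bad coefficient vector.
-/

namespace Pool.Agent.TGh76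

open Finset Polynomial

variable {M : Type*} [Field M]

/-- `ord` is an order function with values in `ℤ` away from `0`. -/
structure IsOrd (ord : M → ℤ) : Prop where
  mul : ∀ a b : M, a ≠ 0 → b ≠ 0 → ord (a * b) = ord a + ord b
  add : ∀ a b : M, a ≠ 0 → b ≠ 0 → a + b ≠ 0 → min (ord a) (ord b) ≤ ord (a + b)

namespace IsOrd

variable {ord : M → ℤ} (h : IsOrd ord)
include h

theorem one : ord 1 = 0 := by
  have := h.mul 1 1 one_ne_zero one_ne_zero
  rw [mul_one] at this
  omega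

theorem pow (a : M) (ha : a ≠ 0) (n : ℕ) : ord (a ^ n) = n * ord a := by
  induction n with
  | zero => simp [h.one]
  | succ n ih =>
    rw [pow_succ, h.mul _ _ (pow_ne_zero n ha) ha, ih]
    push_cast
    ring

theorem eq_zero_of_pow_eq_one (a : M) (n : ℕ) (hn : n ≠ 0) (han : a ^ n = 1) : ord a = 0 := by
  have ha : a ≠ 0 := by
    rintro rfl
    rw [zero_pow hn] at han
    exact zero_ne_one han
  have h1 := h.pow a ha n
  rw [han, h.one] at h1
  have h2 : (n : ℤ) ≠ 0 := by exact_mod_cast hn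
  rcases mul_eq_zero.mp h1.symm with h3 | h3
  · exact absurd h3 h2
  · exact h3

theorem neg (a : M) (ha : a ≠ 0) : ord (-a) = ord a := by
  have h1 : ord (-1 : M) = 0 := h.eq_zero_of_pow_eq_one (-1) 2 two_ne_zero (by ring)
  have h2 := h.mul (-1) a (neg_ne_zero.mpr one_ne_zero) ha
  rw [neg_one_mul] at h2
  omega

theorem add_eq {a b : M} (ha : a ≠ 0) (hb : b ≠ 0) (hab : ord a < ord b) :
    a + b ≠ 0 ∧ ord (a + b) = ord a := by
  have h0 : a + b ≠ 0 := by
    intro h0
    have h1 : a = -b := eq_neg_of_add_eq_zero_left h0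
    rw [h1, h.neg b hb] at hab
    exact lt_irrefl _ hab
  refine ⟨h0, ?_⟩
  have h1 := h.add a b ha hb h0
  have h2 := h.add (a + b) (-b) h0 (neg_ne_zero.mpr hb) (by rw [add_neg_cancel_right]; exact ha)
  rw [add_neg_cancel_right, h.neg b hb] at h2
  omega

/-- `x = 0` or the order of `x` is at least `N`. -/
theorem ge_add {N : ℤ} {a b : M} (ha : a = 0 ∨ N ≤ ord a) (hb : b = 0 ∨ N ≤ ord b) :
    a + b = 0 ∨ N ≤ ord (a + b) := by
  by_cases h0 : a + b = 0
  · exact Or.inl h0
  right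
  by_cases ha0 : a = 0
  · subst ha0
    rw [zero_add] at h0 ⊢
    exact hb.resolve_left h0
  by_cases hb0 : b = 0
  · subst hb0
    rw [add_zero] at h0 ⊢
    exact ha.resolve_left h0
  have h1 := h.add a b ha0 hb0 h0
  have h2 := ha.resolve_left ha0
  have h3 := hb.resolve_left hb0
  omega

theorem ge_neg {N : ℤ} {a : M} (ha : a = 0 ∨ N ≤ ord a) : -a = 0 ∨ N ≤ ord (-a) := by
  by_cases ha0 : a = 0
  · left
    rw [ha0, neg_zero]
  · right
    rw [h.neg a ha0]
    exact ha.resolve_left ha0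

theorem ge_sub {N : ℤ} {a b : M} (ha : a = 0 ∨ N ≤ ord a) (hb : b = 0 ∨ N ≤ ord b) :
    a - b = 0 ∨ N ≤ ord (a - b) := by
  rw [sub_eq_add_neg]
  exact h.ge_add ha (h.ge_neg hb)

theorem ge_sum {ι : Type*} {N : ℤ} (s : Finset ι) (t : ι → M)
    (ht : ∀ i ∈ s, t i = 0 ∨ N ≤ ord (t i)) : ∑ i ∈ s, t i = 0 ∨ N ≤ ord (∑ i ∈ s, t i) := by
  classical
  induction s using Finset.induction_on with
  | empty => left; simp
  | insert i s hi ih =>
    rw [Finset.sum_insert hi]
    exact h.ge_add (ht i (Finset.mem_insert_self i s))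
      (ih fun j hj => ht j (Finset.mem_insert_of_mem hj))

/-- A sum with exactly one term of the smallest order. -/
theorem sum_eq {ι : Type*} (s : Finset ι) (t : ι → M) {i0 : ι} (hi0 : i0 ∈ s) (ht0 : t i0 ≠ 0)
    (ht : ∀ i ∈ s, i ≠ i0 → t i = 0 ∨ ord (t i0) < ord (t i)) :
    ∑ i ∈ s, t i ≠ 0 ∧ ord (∑ i ∈ s, t i) = ord (t i0) := by
  classical
  rw [← Finset.add_sum_erase s t hi0]
  have h1 : ∑ i ∈ s.erase i0, t i = 0 ∨ ord (t i0) + 1 ≤ ord (∑ i ∈ s.erase i0, t i) := by
    apply h.ge_sum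
    intro i hi
    rcases ht i (Finset.mem_of_mem_erase hi) (Finset.ne_of_mem_erase hi) with h2 | h2
    · exact Or.inl h2
    · right
      omega
  by_cases h0 : ∑ i ∈ s.erase i0, t i = 0
  · rw [h0, add_zero]
    exact ⟨ht0, rfl⟩
  · have h2 := h1.resolve_left h0
    exact h.add_eq ht0 h0 (by omega)

section Place

variable {p : ℕ} [hp : Fact p.Prime] [CharP M p]

theorem natCast {i : ℕ} (hi : ¬ p ∣ i) : ord (i : M) = 0 := by
  have h1 : ((i : M)) ^ (p - 1) = 1 := by
    have h2 : ((i : ZMod p)) ^ (p - 1) = 1 := by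
      apply ZMod.pow_card_sub_one_eq_one
      rw [Ne, ZMod.natCast_eq_zero_iff]
      exact hi
    have h3 := congrArg (ZMod.castHom (dvd_refl p) M) h2
    simpa using h3
  exact h.eq_zero_of_pow_eq_one _ _ (by have := hp.out.two_le; omega) h1

omit h hp in
theorem _root_.Pool.Agent.TGh76.natCast_ne_zero' {i : ℕ} (hi : ¬ p ∣ i) : (i : M) ≠ 0 := by
  rw [Ne, CharP.cast_eq_zero_iff M p]
  exact hi

omit [CharP M p] in
/-- The orders of `u^i a^p`, `i < p`, are distinct. -/
theorem term_inj {u : M} (hu0 : u ≠ 0) (hu : ¬ (p : ℤ) ∣ ord u) {i j : ℕ} (hi : i < p)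
    (hj : j < p) {a b : M} (ha : a ≠ 0) (hb : b ≠ 0)
    (hij : ord (u ^ i * a ^ p) = ord (u ^ j * b ^ p)) : i = j := by
  rw [h.mul _ _ (pow_ne_zero i hu0) (pow_ne_zero p ha), h.mul _ _ (pow_ne_zero j hu0)
    (pow_ne_zero p hb), h.pow u hu0, h.pow u hu0, h.pow a ha, h.pow b hb] at hij
  have h1 : (p : ℤ) ∣ ((i : ℤ) - j) * ord u := ⟨ord b - ord a, by linear_combination hij⟩
  have hpi : Prime (p : ℤ) := Nat.prime_iff_prime_int.mp hp.out
  have h2 := (hpi.dvd_or_dvd h1).resolve_right hu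
  obtain ⟨c, hc⟩ := h2
  have h3 : c = 0 := by
    by_contra hc0
    have h4 : 1 ≤ |c| := Int.one_le_abs hc0
    have h5 : |(i : ℤ) - j| = p * |c| := by rw [hc, abs_mul, Nat.abs_cast]
    have h6 : |(i : ℤ) - j| < p := by
      rw [abs_lt]
      constructor <;> omega
    have h7 : (p : ℤ) ≤ p * |c| := by nlinarith
    omega
  rw [h3, mul_zero] at hc
  omega

variable {R : Type*} [CommRing R] [Algebra R M] (D : Derivation R M M)

omit h hp in
theorem _root_.Pool.Agent.TGh76.der_pow_char (a : M) : D (a ^ p) = 0 := by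
  rw [Derivation.leibniz_pow]
  have : (p : M) = 0 := CharP.cast_eq_zero M p
  rw [← Nat.cast_smul_eq_nsmul M, this, zero_smul]

omit h hp in
theorem _root_.Pool.Agent.TGh76.der_expand {u : M} (hD : D u = 1) (a : ℕ → M) :
    u * D (∑ i ∈ range p, u ^ i * a i ^ p) = ∑ i ∈ range p, (i : M) * (u ^ i * a i ^ p) := by
  rw [map_sum, Finset.mul_sum]
  refine Finset.sum_congr rfl fun i _ => ?_
  rw [Derivation.leibniz, der_pow_char, Derivation.leibniz_pow, hD]
  rcases i with - | i
  · simp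
  · simp only [Nat.add_sub_cancel, smul_eq_mul, nsmul_eq_mul, mul_zero, zero_add, mul_one]
    rw [pow_succ]
    ring

omit [CharP M p] in
/-- Key computation: an element `g = Σ u^i a_i^p` has the smallest order of its terms. -/
theorem expand_ord {u : M} (hu0 : u ≠ 0) (hu : ¬ (p : ℤ) ∣ ord u) (a : ℕ → M)
    (hg : ∑ i ∈ range p, u ^ i * a i ^ p ≠ 0) :
    ∃ i0 < p, a i0 ≠ 0 ∧ ord (∑ i ∈ range p, u ^ i * a i ^ p) = ord (u ^ i0 * a i0 ^ p) ∧
      ∀ i < p, a i ≠ 0 → i ≠ i0 → ord (u ^ i0 * a i0 ^ p) < ord (u ^ i * a i ^ p) := by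
  classical
  set s := (range p).filter (fun i => a i ≠ 0) with hs
  have hne : s.Nonempty := by
    by_contra hcon
    rw [Finset.not_nonempty_iff_eq_empty] at hcon
    apply hg
    refine Finset.sum_eq_zero fun i hi => ?_
    have : i ∉ s := by rw [hcon]; exact Finset.notMem_empty i
    rw [hs, Finset.mem_filter] at this
    have h2 : a i = 0 := by
      by_contra h3
      exact this ⟨hi, h3⟩
    rw [h2, zero_pow hp.out.ne_zero, mul_zero]
  obtain ⟨i0, hi0, hmin⟩ := Finset.exists_min_image s (fun i => ord (u ^ i * a i ^ p)) hne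
  rw [hs, Finset.mem_filter, Finset.mem_range] at hi0
  have hlt : ∀ i < p, a i ≠ 0 → i ≠ i0 → ord (u ^ i0 * a i0 ^ p) < ord (u ^ i * a i ^ p) := by
    intro i hi hai hne'
    have h1 := hmin i (by rw [hs, Finset.mem_filter, Finset.mem_range]; exact ⟨hi, hai⟩)
    have h2 : ord (u ^ i0 * a i0 ^ p) ≠ ord (u ^ i * a i ^ p) := fun h3 =>
      hne' (h.term_inj hu0 hu hi0.1 hi hi0.2 hai h3).symm
    omega
  refine ⟨i0, hi0.1, hi0.2, ?_, hlt⟩
  refine (h.sum_eq (range p) (fun i => u ^ i * a i ^ p) (Finset.mem_range.mpr hi0.1)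
    (mul_ne_zero (pow_ne_zero _ hu0) (pow_ne_zero _ hi0.2)) ?_).2
  intro i hi hne'
  by_cases hai : a i = 0
  · left
    simp only [hai, zero_pow hp.out.ne_zero, mul_zero]
  · right
    exact hlt i (Finset.mem_range.mp hi) hai hne'

/-- `ord g ≤ ord (u D g)`. -/
theorem ord_le_ord_mul_der {u : M} (hu0 : u ≠ 0) (hu : ¬ (p : ℤ) ∣ ord u) (hD : D u = 1)
    (hbasis : ∀ g : M, ∃ a : ℕ → M, g = ∑ i ∈ range p, u ^ i * a i ^ p) (g : M)
    (hDg : D g ≠ 0) : ord g ≤ ord (u * D g) := by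
  obtain ⟨a, ha⟩ := hbasis g
  have hg : g ≠ 0 := by
    rintro rfl
    exact hDg (map_zero D)
  subst ha
  obtain ⟨i0, hi0, hai0, hord, hlt⟩ := h.expand_ord hu0 hu a hg
  rw [der_expand D hD, hord]
  refine (h.ge_sum (N := ord (u ^ i0 * a i0 ^ p)) (range p)
    (fun i => (i : M) * (u ^ i * a i ^ p)) ?_).resolve_left ?_
  · intro i hi
    rw [Finset.mem_range] at hi
    by_cases hpi : p ∣ i
    · left
      have : (i : M) = 0 := (CharP.cast_eq_zero_iff M p i).mpr hpi
      simp only [this, zero_mul]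
    by_cases hai : a i = 0
    · left
      simp only [hai, zero_pow hp.out.ne_zero, mul_zero]
    · right
      rw [h.mul _ _ (natCast_ne_zero' hpi) (mul_ne_zero (pow_ne_zero _ hu0)
        (pow_ne_zero _ hai)), h.natCast hpi, zero_add]
      by_cases hii : i = i0
      · rw [hii]
      · exact (hlt i hi hai hii).le
  · rw [← der_expand D hD]
    exact mul_ne_zero hu0 hDg

/-- `ord (u D g) = ord g` when `p ∤ ord g`. -/
theorem ord_mul_der_eq {u : M} (hu0 : u ≠ 0) (hu : ¬ (p : ℤ) ∣ ord u) (hD : D u = 1)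
    (hbasis : ∀ g : M, ∃ a : ℕ → M, g = ∑ i ∈ range p, u ^ i * a i ^ p) (g : M)
    (hg0 : g ≠ 0) (hg : ¬ (p : ℤ) ∣ ord g) : D g ≠ 0 ∧ ord (u * D g) = ord g := by
  obtain ⟨a, ha⟩ := hbasis g
  subst ha
  obtain ⟨i0, hi0, hai0, hord, hlt⟩ := h.expand_ord hu0 hu a hg0
  have hpi0 : ¬ p ∣ i0 := by
    intro hdvd
    have h1 : i0 = 0 := Nat.eq_zero_of_dvd_of_lt hdvd hi0
    apply hg
    rw [hord, h1, pow_zero, one_mul, h.pow _ (h1 ▸ hai0)]
    exact dvd_mul_right _ _
  have hterm : ord ((i0 : M) * (u ^ i0 * a i0 ^ p)) = ord (u ^ i0 * a i0 ^ p) := by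
    rw [h.mul _ _ (natCast_ne_zero' hpi0) (mul_ne_zero (pow_ne_zero _ hu0)
        (pow_ne_zero _ hai0)), h.natCast hpi0, zero_add]
  have h2 := h.sum_eq (range p) (fun i => (i : M) * (u ^ i * a i ^ p)) (i0 := i0)
    (Finset.mem_range.mpr hi0)
    (mul_ne_zero (natCast_ne_zero' hpi0) (mul_ne_zero (pow_ne_zero _ hu0) (pow_ne_zero _ hai0)))
    (by
      intro i hi hne
      rw [Finset.mem_range] at hi
      by_cases hpi : p ∣ i
      · left
        have : (i : M) = 0 := (CharP.cast_eq_zero_iff M p i).mpr hpi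
        simp only [this, zero_mul]
      by_cases hai : a i = 0
      · left
        simp only [hai, zero_pow hp.out.ne_zero, mul_zero]
      · right
        rw [hterm, h.mul _ _ (natCast_ne_zero' hpi) (mul_ne_zero (pow_ne_zero _ hu0)
          (pow_ne_zero _ hai)), h.natCast hpi, zero_add]
        exact hlt i hi hai hne)
  rw [der_expand D hD, hord]
  refine ⟨?_, ?_⟩
  · intro h3
    apply h2.1
    have h4 := der_expand D hD a
    rw [h3, mul_zero] at h4
    exact h4.symm
  · rw [h2.2]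
    exact hterm

end Place

section Coeff

variable {k : Type*} [Field k] [Algebra k M]

/-- The order of a combination of `m_j`, `ord m_j = (j+1) e`. -/
theorem comb_ord (hk : ∀ c : k, c ≠ 0 → ord (algebraMap k M c) = 0) {e : ℤ} (he : 0 < e) {N : ℕ}
    (m : Fin N → M) (hm0 : ∀ j, m j ≠ 0) (hm : ∀ j, ord (m j) = ((j : ℕ) + 1) * e)
    (d : Fin N → k) (hd : d ≠ 0) :
    ∃ j0 : Fin N, ∑ j, algebraMap k M (d j) * m j ≠ 0 ∧
      ord (∑ j, algebraMap k M (d j) * m j) = ((j0 : ℕ) + 1) * e := by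
  classical
  have hex : ∃ j, d j ≠ 0 := by
    by_contra hcon
    push Not at hcon
    exact hd (funext hcon)
  obtain ⟨j1, hj1⟩ := hex
  obtain ⟨j0, hj0, hmin⟩ := Finset.exists_min_image (univ.filter (fun j => d j ≠ 0))
    (fun j : Fin N => (j : ℕ)) ⟨j1, by simp [hj1]⟩
  rw [Finset.mem_filter] at hj0
  have hc0 : ∀ j, d j ≠ 0 → algebraMap k M (d j) ≠ 0 := fun j hj => by
    rw [Ne, map_eq_zero]
    exact hj
  have hterm : ∀ j, d j ≠ 0 → ord (algebraMap k M (d j) * m j) = ((j : ℕ) + 1) * e := fun j hj => by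
    rw [h.mul _ _ (hc0 j hj) (hm0 j), hk _ hj, hm, zero_add]
  have h1 := h.sum_eq univ (fun j => algebraMap k M (d j) * m j) (i0 := j0) (mem_univ _)
    (mul_ne_zero (hc0 j0 hj0.2) (hm0 j0)) (by
      intro j _ hne
      by_cases hj : d j = 0
      · left
        simp only [hj, map_zero, zero_mul]
      · right
        rw [hterm j hj, hterm j0 hj0.2]
        have h2 : (j0 : ℕ) ≤ j := hmin j (by simp [hj])
        have h3 : (j0 : ℕ) ≠ j := fun h4 => hne (Fin.ext h4).symm
        have h4 : ((j0 : ℕ) : ℤ) < (j : ℕ) := by exact_mod_cast lt_of_le_of_ne h2 h3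
        nlinarith)
  exact ⟨j0, h1.1, h1.2.trans (hterm j0 hj0.2)⟩

omit h in
theorem _root_.Pool.Agent.TGh76.comb_sub {N : ℕ} (G : M) (m : Fin N → M) (c c' : Fin N → k) :
    (G + ∑ j, algebraMap k M (c j) * m j) - (G + ∑ j, algebraMap k M (c' j) * m j) =
      ∑ j, algebraMap k M ((c - c') j) * m j := by
  rw [add_sub_add_left_eq_sub, ← Finset.sum_sub_distrib]
  refine Finset.sum_congr rfl fun j _ => ?_
  rw [Pi.sub_apply, map_sub, sub_mul]

/-- At most one coefficient vector `c` makes `h' + Σ c_j m_j` of order `≥ (N+1) e`. -/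
theorem unique_coeff (hk : ∀ c : k, c ≠ 0 → ord (algebraMap k M c) = 0) {e : ℤ} (he : 0 < e)
    {N : ℕ} (m : Fin N → M) (hm0 : ∀ j, m j ≠ 0) (hm : ∀ j, ord (m j) = ((j : ℕ) + 1) * e)
    (G : M) {c c' : Fin N → k}
    (hc : G + ∑ j, algebraMap k M (c j) * m j = 0 ∨
      (N + 1) * e ≤ ord (G + ∑ j, algebraMap k M (c j) * m j))
    (hc' : G + ∑ j, algebraMap k M (c' j) * m j = 0 ∨
      (N + 1) * e ≤ ord (G + ∑ j, algebraMap k M (c' j) * m j)) : c = c' := by
  by_contra hne
  obtain ⟨j0, h1, h2⟩ := h.comb_ord hk he m hm0 hm (c - c') (sub_ne_zero.mpr hne)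
  have h3 := h.ge_sub hc hc'
  rw [comb_sub] at h3
  have h4 := h3.resolve_left h1
  rw [h2] at h4
  have h5 : ((j0 : ℕ) : ℤ) < N := by exact_mod_cast j0.2
  nlinarith

variable {p : ℕ} [hp : Fact p.Prime] [CharP M p]

/-- At most one coefficient vector `c` makes `D (G + Σ c_j m_j)` of order `≥ N e`. -/
theorem unique_coeff_der (D : Derivation k M M)
    {u : M} (hu0 : u ≠ 0) (hu : ¬ (p : ℤ) ∣ ord u) (hD : D u = 1)
    (hbasis : ∀ g : M, ∃ a : ℕ → M, g = ∑ i ∈ range p, u ^ i * a i ^ p)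
    (hk : ∀ c : k, c ≠ 0 → ord (algebraMap k M c) = 0) (he : 0 < ord u)
    {N : ℕ} (hN : N < p) (m : Fin N → M) (hm0 : ∀ j, m j ≠ 0)
    (hm : ∀ j, ord (m j) = ((j : ℕ) + 1) * ord u)
    (G : M) {c c' : Fin N → k}
    (hc : D (G + ∑ j, algebraMap k M (c j) * m j) = 0 ∨
      N * ord u ≤ ord (D (G + ∑ j, algebraMap k M (c j) * m j)))
    (hc' : D (G + ∑ j, algebraMap k M (c' j) * m j) = 0 ∨
      N * ord u ≤ ord (D (G + ∑ j, algebraMap k M (c' j) * m j))) : c = c' := by
  by_contra hne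
  obtain ⟨j0, h1, h2⟩ := h.comb_ord hk he m hm0 hm (c - c') (sub_ne_zero.mpr hne)
  have h3 := h.ge_sub hc hc'
  rw [← map_sub, comb_sub] at h3
  have h5 : ((j0 : ℕ) : ℤ) < N := by exact_mod_cast j0.2
  have hpi : Prime (p : ℤ) := Nat.prime_iff_prime_int.mp hp.out
  have h6 : ¬ (p : ℤ) ∣ ord (∑ j, algebraMap k M ((c - c') j) * m j) := by
    rw [h2]
    intro hdvd
    rcases hpi.dvd_or_dvd hdvd with h7 | h7
    · have h8 : p ∣ (j0 : ℕ) + 1 := by exact_mod_cast h7
      have h9 := Nat.le_of_dvd (Nat.succ_pos _) h8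
      have h10 := j0.2
      omega
    · exact hu h7
  obtain ⟨h7, h8⟩ := h.ord_mul_der_eq D hu0 hu hD hbasis _ h1 h6
  have h9 := h3.resolve_left h7
  rw [h.mul _ _ hu0 h7, h2] at h8
  have h10 : (N : ℤ) * ord u + ord u ≤ ((j0 : ℕ) + 1) * ord u := by linarith
  nlinarith

end Coeff

end IsOrd

section Basis

variable {k : Type*} [Field k] [Algebra k M] (p : ℕ) [hp : Fact p.Prime] [CharP M p]
  [PerfectField k]

/-- `M` algebraic and separable over `k(u)`, `k` perfect: every element of `M` is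
`Σ_{i<p} u^i a_i^p`. -/
theorem exists_pbasis (u : M)
    [hsep : Algebra.IsSeparable (IntermediateField.adjoin k {u}) M] (g : M) :
    ∃ a : ℕ → M, g = ∑ i ∈ range p, u ^ i * a i ^ p := by
  classical
  have : CharP k p := by
    have := RingHom.charP (algebraMap k M) (algebraMap k M).injective p
    exact this
  have : ExpChar k p := ExpChar.prime hp.out
  have : ExpChar M p := ExpChar.prime hp.out
  have : PerfectRing k p := PerfectField.toPerfectRing p
  set F := IntermediateField.adjoin k {u} with hF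
  have : ExpChar F p := by
    exact expChar_of_injective_algebraMap (algebraMap k F).injective p
  set L0 : Subfield M := (frobenius M p).fieldRange with hL0
  have hL0mem : ∀ x : M, x ^ p ∈ L0 := fun x => ⟨x, rfl⟩
  have hL0k : ∀ c : k, algebraMap k M c ∈ L0 := by
    intro c
    obtain ⟨d, hd⟩ := surjective_frobenius k p c
    rw [← hd, frobenius_def, map_pow]
    exact hL0mem _
  set E : IntermediateField L0 M := IntermediateField.adjoin L0 {u} with hE
  have huE : u ∈ E := IntermediateField.mem_adjoin_simple_self L0 u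
  have hL0E : ∀ x ∈ L0, x ∈ E := fun x hx => E.algebraMap_mem ⟨x, hx⟩
  have hFE : ∀ x ∈ F, x ∈ E := by
    intro x hx
    have h1 : F.toSubfield ≤ E.toSubfield := by
      rw [hF, IntermediateField.adjoin_toSubfield, Subfield.closure_le]
      rintro y (⟨c, rfl⟩ | hy)
      · exact hL0E _ (hL0k c)
      · rw [Set.mem_singleton_iff] at hy
        subst hy
        exact huE
    exact h1 hx
  have hgE : g ∈ E := by
    have h1 := IntermediateField.adjoin_simple_eq_adjoin_pow_expChar_of_isSeparable F M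
      (Algebra.IsSeparable.isSeparable F g) p
    have h2 : g ∈ IntermediateField.adjoin F {g ^ p} := by
      rw [← h1]
      exact IntermediateField.mem_adjoin_simple_self F g
    have h3 : (IntermediateField.adjoin F {g ^ p}).toSubfield ≤ E.toSubfield := by
      rw [IntermediateField.adjoin_toSubfield, Subfield.closure_le]
      rintro y (⟨c, rfl⟩ | hy)
      · exact hFE _ c.2
      · rw [Set.mem_singleton_iff] at hy
        subst hy
        exact hL0E _ (hL0mem g)
    exact h3 h2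
  have hq : (X ^ p - C (⟨u ^ p, hL0mem u⟩ : L0) : L0[X]).Monic :=
    monic_X_pow_sub_C _ hp.out.ne_zero
  have hqu : aeval u (X ^ p - C (⟨u ^ p, hL0mem u⟩ : L0) : L0[X]) = 0 := by
    rw [map_sub, map_pow, aeval_X, aeval_C]
    exact sub_self _
  have hint : IsIntegral L0 u := ⟨_, hq, hqu⟩
  have h4 : g ∈ Algebra.adjoin L0 {u} := by
    rw [← IntermediateField.adjoin_simple_toSubalgebra_of_isAlgebraic hint.isAlgebraic]
    exact hgE
  rw [Algebra.adjoin_singleton_eq_range_aeval] at h4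
  obtain ⟨P, hP⟩ := h4
  have h5 : aeval u (P %ₘ (X ^ p - C (⟨u ^ p, hL0mem u⟩ : L0) : L0[X])) = g := by
    rw [← hP]
    exact aeval_modByMonic_eq_self_of_root hqu
  have hdeg : (P %ₘ (X ^ p - C (⟨u ^ p, hL0mem u⟩ : L0) : L0[X])).natDegree < p := by
    have h6 := natDegree_modByMonic_lt P hq (by
      intro h7
      have := congrArg natDegree h7
      rw [natDegree_X_pow_sub_C, natDegree_one] at this
      exact hp.out.ne_zero this)
    rwa [natDegree_X_pow_sub_C] at h6
  rw [aeval_eq_sum_range' hdeg] at h5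
  choose a ha using fun i => ((P %ₘ (X ^ p - C (⟨u ^ p, hL0mem u⟩ : L0) : L0[X])).coeff i).2
  refine ⟨a, ?_⟩
  rw [← h5]
  refine Finset.sum_congr rfl fun i _ => ?_
  have h6 := ha i
  rw [frobenius_def] at h6
  rw [h6, mul_comm]
  rfl


end Basis

end Pool.Agent.TGh76
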