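import Mathlib

/-!
# Automorphisms of an algebraically closed field over a smaller field (helper76)

`exists_shift`: for `t : k` transcendental over `κ` and `c : κ` there is a `κ`-automorphism
of `k` which sends `t` to `t + c`.
`finite_stable_mem_range`: a point of a finite set of vectors over `k`, stable under all
`κ`-automorphisms of `k`, has all its coordinates in `κ`.
-/

namespace Pool.Agent.TGh76

open MvPolynomial

section Shift

variable {κ k : Type*} [Field κ] [Field k] [Algebra κ k] [IsAlgClosed k]

theorem exists_shift (t : k) (ht : Transcendental κ t) (c : κ) :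
    ∃ σ : k ≃ₐ[κ] k, σ t = t + algebraMap κ k c := by
  classical
  have hone : AlgebraicIndepOn κ id ({t} : Set k) := by
    have h1 : AlgebraicIndependent κ (fun _ : Unit => t) := by
      rw [algebraicIndependent_unique_type_iff]
      exact ht
    have h2 := h1.comp (fun i : ({t} : Set k) => ()) (by
      intro a b _
      apply Subtype.ext
      rw [Set.mem_singleton_iff.mp a.2, Set.mem_singleton_iff.mp b.2])
    convert h2 using 1
    funext i
    exact Set.mem_singleton_iff.mp i.2
  obtain ⟨s, hts, hs⟩ := exists_isTranscendenceBasis_superset (R := κ) (A := k) hone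
  have htm : t ∈ s := hts (Set.mem_singleton t)
  let t0 : s := ⟨t, htm⟩
  let v : s → k := Subtype.val
  have hv : IsTranscendenceBasis κ v := hs
  let w : s → MvPolynomial s κ := fun i => if i = t0 then C c else 0
  have hwC : ∀ i, ∃ d : κ, w i = C d := fun i => by
    by_cases h : i = t0
    · exact ⟨c, by simp [w, h]⟩
    · exact ⟨0, by simp [w, h]⟩
  let f : MvPolynomial s κ →ₐ[κ] MvPolynomial s κ := aeval (fun i => X i + w i)
  let g : MvPolynomial s κ →ₐ[κ] MvPolynomial s κ := aeval (fun i => X i - w i)
  have hfC : ∀ d : κ, f (C d) = C d := fun d => by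
    simp [f]
  have hgC : ∀ d : κ, g (C d) = C d := fun d => by
    simp [g]
  have hfg : f.comp g = AlgHom.id κ _ := by
    apply MvPolynomial.algHom_ext
    intro i
    obtain ⟨d, hd⟩ := hwC i
    have h1 : g (X i) = X i - w i := by simp [g]
    have h2 : f (X i) = X i + w i := by simp [f]
    rw [AlgHom.comp_apply, h1, map_sub, h2, hd, hfC, AlgHom.id_apply]
    ring
  have hgf : g.comp f = AlgHom.id κ _ := by
    apply MvPolynomial.algHom_ext
    intro i
    obtain ⟨d, hd⟩ := hwC i
    have h1 : g (X i) = X i - w i := by simp [g]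
    have h2 : f (X i) = X i + w i := by simp [f]
    rw [AlgHom.comp_apply, h2, map_add, h1, hd, hgC, AlgHom.id_apply]
    ring
  let e : MvPolynomial s κ ≃ₐ[κ] MvPolynomial s κ := AlgEquiv.ofAlgHom f g hfg hgf
  let e' : Algebra.adjoin κ (Set.range v) ≃ₐ[κ] Algebra.adjoin κ (Set.range v) :=
    (hv.1.aevalEquiv.symm.trans e).trans hv.1.aevalEquiv
  let := IsAlgClosed.isAlgClosure_of_transcendence_basis v hv
  let σ0 : k ≃+* k := IsAlgClosure.equivOfEquiv k k e'.toRingEquiv
  have hσ0 : ∀ a : Algebra.adjoin κ (Set.range v), σ0 (a : k) = ((e' a : _) : k) := by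
    intro a
    exact IsAlgClosure.equivOfEquiv_algebraMap k k e'.toRingEquiv a
  refine ⟨AlgEquiv.ofRingEquiv (f := σ0) ?_, ?_⟩
  · intro r
    have h1 := hσ0 (algebraMap κ _ r)
    rw [e'.commutes] at h1
    exact h1
  · have hXt : ((hv.1.aevalEquiv (X t0) : Algebra.adjoin κ (Set.range v)) : k) = t := by
      simp [v, t0]
    have h1 := hσ0 (hv.1.aevalEquiv (X t0))
    rw [hXt] at h1
    have h2 : e' (hv.1.aevalEquiv (X t0)) = hv.1.aevalEquiv (X t0 + C c) := by
      change hv.1.aevalEquiv (e (hv.1.aevalEquiv.symm (hv.1.aevalEquiv (X t0)))) = _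
      rw [AlgEquiv.symm_apply_apply]
      congr 1
      change f (X t0) = _
      simp [f, w]
    rw [h2] at h1
    change σ0 t = _
    rw [h1, map_add]
    push_cast
    rw [hXt]
    congr 1
    have : (C c : MvPolynomial s κ) = algebraMap κ _ c := rfl
    rw [this, AlgEquiv.commutes]
    rfl

end Shift

section Stable

variable {κ k : Type*} [Field κ] [IsAlgClosed κ] [Field k] [Algebra κ k] [IsAlgClosed k]

omit [IsAlgClosed k] in
theorem transcendental_of_not_mem_range {t : k} (h : t ∉ Set.range (algebraMap κ k)) :
    Transcendental κ t := by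
  intro halg
  apply h
  have hint : IsIntegral κ t := halg.isIntegral
  have h3 : Algebra.IsIntegral κ (IntermediateField.adjoin κ {t}) := by
    have : Algebra.IsAlgebraic κ (IntermediateField.adjoin κ {t}) :=
      IntermediateField.isAlgebraic_adjoin_simple hint
    infer_instance
  have h2 := IsAlgClosed.algebraMap_bijective_of_isIntegral (k := κ)
    (K := IntermediateField.adjoin κ {t})
  obtain ⟨a, ha⟩ := h2.2 ⟨t, IntermediateField.mem_adjoin_simple_self κ t⟩
  refine ⟨a, ?_⟩
  have := congrArg (Subtype.val) ha
  exact this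

/-- A finite set of vectors, stable under the `κ`-automorphisms of `k`, consists of vectors
with coordinates in `κ`. -/
theorem finite_stable_mem_range {ι : Type*} {S : Set (ι → k)} (hS : S.Finite)
    (hst : ∀ σ : k ≃ₐ[κ] k, ∀ a ∈ S, (fun i => σ (a i)) ∈ S) {a : ι → k} (ha : a ∈ S) (i : ι) :
    a i ∈ Set.range (algebraMap κ k) := by
  by_contra hcon
  have htr : Transcendental κ (a i) := transcendental_of_not_mem_range hcon
  choose σ hσ using fun c : κ => exists_shift (a i) htr c
  have hinj : Function.Injective (fun c : κ => (fun j => σ c (a j))) := by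
    intro c d hcd
    have h1 := congrFun hcd i
    simp only [hσ] at h1
    exact (algebraMap κ k).injective (add_left_cancel h1)
  have hinf : Infinite κ := inferInstance
  have hsub : Set.range (fun c : κ => (fun j => σ c (a j))) ⊆ S := by
    rintro _ ⟨c, rfl⟩
    exact hst (σ c) a ha
  exact Set.infinite_range_of_injective hinj (hS.subset hsub)

/-- A finite set of elements, stable under the `κ`-automorphisms of `k`, lies in `κ`. -/
theorem finite_stable_mem_range' {S : Set k} (hS : S.Finite)
    (hst : ∀ σ : k ≃ₐ[κ] k, ∀ a ∈ S, σ a ∈ S) {a : k} (ha : a ∈ S) :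
    a ∈ Set.range (algebraMap κ k) := by
  by_contra hcon
  have htr : Transcendental κ a := transcendental_of_not_mem_range hcon
  choose σ hσ using fun c : κ => exists_shift a htr c
  have hinj : Function.Injective (fun c : κ => σ c a) := by
    intro c d hcd
    simp only [hσ] at hcd
    exact (algebraMap κ k).injective (add_left_cancel hcd)
  have hinf : Infinite κ := inferInstance
  have hsub : Set.range (fun c : κ => σ c a) ⊆ S := by
    rintro _ ⟨c, rfl⟩
    exact hst (σ c) a ha
  exact Set.infinite_range_of_injective hinj (hS.subset hsub)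

end Stable

end Pool.Agent.TGh76
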